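import Pool.Agent.Lib.MP_675d17_an.Schur

set_option autoImplicit false

namespace Pool.Agent.Results.MP_675d17_an.WeightedMinors

open Polynomial Finset

lemma eval_sum (n : ℕ) (c : ℕ → ℝ) (z : ℂ) :
    ((∑ k ∈ range (n + 1), C (c k) * X ^ k : ℝ[X]).map (algebraMap ℝ ℂ)).eval z =
      ∑ k ∈ range (n + 1), (c k : ℂ) * z ^ k := by
  rw [Polynomial.map_sum, eval_finsetSum]
  exact sum_congr rfl fun k _ => by simp

lemma coeff_sum (n : ℕ) (c : ℕ → ℝ) (j : ℕ) :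
    (∑ k ∈ range (n + 1), C (c k) * X ^ k : ℝ[X]).coeff j = if j ≤ n then c j else 0 := by
  rw [Polynomial.finsetSum_coeff]
  simp only [coeff_C_mul, coeff_X_pow, mul_ite, mul_one, mul_zero]
  rw [sum_ite_eq]
  simp only [mem_range, Nat.lt_succ_iff]

/-- Fisk's conjecture with factorial weights; the case `I = J = ∅` is the conjecture. -/
theorem result (n : ℕ) (a : ℤ → ℝ) (hpos : ∀ k : ℤ, 0 ≤ k → k ≤ n → 0 < a k)
    (hzero : ∀ k : ℤ, k < 0 ∨ (n : ℤ) < k → a k = 0)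
    (hroot : ∀ z : ℂ, ∑ k ∈ Finset.range (n + 1), (a k : ℂ) * z ^ k = 0 → z.im = 0 ∧ z.re < 0)
    (r : ℕ) (hr : 1 ≤ r) (I J : Finset ℕ) (hI : I ⊆ Finset.Ico 1 r) (hJ : J ⊆ Finset.Ico 1 r)
    (hIJ : Disjoint I J) (z : ℂ)
    (hz : ∑ k ∈ Finset.range (n + 1),
      (((∏ j ∈ I, (k + j).factorial) * ∏ j ∈ J, (n - k + j).factorial : ℕ) : ℂ) *
        (((Matrix.of fun i j : Fin r => a ((k : ℤ) + (i : ℕ) - (j : ℕ))).det : ℝ) : ℂ) * z ^ k
          = 0) :
    z.im = 0 ∧ z.re < 0 := by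
  obtain ⟨R, rfl⟩ : ∃ R, r = R + 1 := ⟨r - 1, by omega⟩
  set p : ℝ[X] := ∑ k ∈ range (n + 1), C (a (k : ℕ)) * X ^ k with hp
  have hc : ∀ j : ℕ, p.coeff j = a j := fun j => by
    rw [hp, coeff_sum n fun k => a k]
    split_ifs with h
    · rfl
    · exact (hzero j (.inr (by omega))).symm
  have hdeg : p.natDegree = n := by
    refine le_antisymm (natDegree_le_iff_coeff_eq_zero.2 fun N hN => ?_)
      (le_natDegree_of_ne_zero ?_) <;> rw [hc]
    · exact hzero N (.inr (by omega))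
    · exact (hpos n (by omega) le_rfl).ne'
  have hsp : p.Splits := by
    refine Splits.of_splits_map (algebraMap ℝ ℂ) (IsAlgClosed.splits _) fun w hw => ?_
    have h1 := isRoot_of_mem_roots hw
    rw [IsRoot, hp, eval_sum n fun k => a k] at h1
    exact ⟨w.re, Complex.ext rfl (by simp [(hroot w h1).1])⟩
  refine Pool.Agent.Lib.MP_675d17_an.schur_form p
    (fun k hk => by rw [hc]; exact hpos k (by omega) (by omega))
    (splits_iff_card_roots.1 hsp) R hI hJ hIJ z ?_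
  rw [hdeg, ← hz]
  refine sum_congr rfl fun k _ => ?_
  congr 2
  refine Eq.trans ?_ ((algebraMap ℝ ℂ).map_det _).symm
  unfold Pool.Agent.Lib.MP_675d17_an.JJ
  congr 1
  ext i j
  simp only [RingHom.mapMatrix_apply, Matrix.map_apply, Matrix.of_apply,
    PowerSeries.coeff_X_pow_mul', Polynomial.coeff_coe, Polynomial.coeff_map]
  split_ifs with h
  · rw [hc]
    congr 2
    omega
  · rw [hzero _ (.inl (by omega)), map_zero]

/-- Fisk's conjecture. -/
theorem fisk (n : ℕ) (a : ℤ → ℝ) (hpos : ∀ k : ℤ, 0 ≤ k → k ≤ n → 0 < a k)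
    (hzero : ∀ k : ℤ, k < 0 ∨ (n : ℤ) < k → a k = 0)
    (hroot : ∀ z : ℂ, ∑ k ∈ Finset.range (n + 1), (a k : ℂ) * z ^ k = 0 → z.im = 0 ∧ z.re < 0)
    (r : ℕ) (hr : 1 ≤ r) (z : ℂ)
    (hz : ∑ k ∈ Finset.range (n + 1),
      (((Matrix.of fun i j : Fin r => a ((k : ℤ) + (i : ℕ) - (j : ℕ))).det : ℝ) : ℂ) * z ^ k
        = 0) :
    z.im = 0 ∧ z.re < 0 :=
  result n a hpos hzero hroot r hr ∅ ∅ (by simp) (by simp) (by simp) z (by simpa using hz)

end Pool.Agent.Results.MP_675d17_an.WeightedMinors
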